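import Mathlib
import Pool.Agent.W964.Wd.Triples
import Pool.Agent.W964.Wd.Param

/-!
Complete graphs with random weights, with and without a planted triangle of weight zero.
-/

set_option linter.unusedSectionVars false

namespace Pool.Agent.W980.ET

open Finset H568R2 H592R3 Pool.Agent.W964.Pram Pool.Agent.W964.Wd

/-- An instance of Exact Triangle on `n` vertices: the cell `(i, j)` contains the edge flag and the
weight; the matrix is symmetric, the graph is complete, and the weights are bounded by `n ^ 4`. -/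
def TriInst (n : ℕ) (x : Fin n × Fin n → Bool × ℤ) : Prop :=
  (∀ i j, x (i, j) = x (j, i)) ∧ (∀ i j, (x (i, j)).1 = true ↔ i ≠ j) ∧
    ∀ i j, |(x (i, j)).2| ≤ (n : ℤ) ^ 4

/-- There is a triangle of weight zero. -/
def TriYes {n : ℕ} (x : Fin n × Fin n → Bool × ℤ) : Prop :=
  ∃ i j k, i ≠ j ∧ j ≠ k ∧ i ≠ k ∧ (x (i, j)).1 = true ∧ (x (j, k)).1 = true ∧
    (x (i, k)).1 = true ∧ (x (i, j)).2 + (x (j, k)).2 + (x (i, k)).2 = 0

/-- The class of a vertex. -/
def cl {n : ℕ} (i : Fin n) : ℕ := i.val % 3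

lemma cl_lt {n : ℕ} (i : Fin n) : cl i < 3 := Nat.mod_lt _ (by norm_num)

/-- The coordinate of a pair of vertices of different classes. -/
def co {n : ℕ} (i j : Fin n) : Fin n × Fin n := if cl i < cl j then (i, j) else (j, i)

/-- The sign of a pair of vertices of different classes. -/
def sg {n : ℕ} (i j : Fin n) : ℤ := if cl i + cl j = 2 then -1 else 1

/-- The weighted complete graph given by `Z`. -/
def tarr {n N : ℕ} (Z : Fin n × Fin n → Fin N) : Fin n × Fin n → Bool × ℤ := fun e =>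
  if e.1 = e.2 then (false, 0) else
    if cl e.1 = cl e.2 then (true, 2 * (N : ℤ)) else
      (true, sg e.1 e.2 * ((Z (co e.1 e.2)).val : ℤ))

lemma tarr_blk {n N : ℕ} : Blk (tarr (n := n) (N := N)) := by
  intro e
  exact ⟨co e.1 e.2, fun Y Y' h => by unfold tarr; rw [h]⟩

lemma co_symm {n : ℕ} {i j : Fin n} (h : cl i ≠ cl j) : co i j = co j i := by
  unfold co
  rcases lt_or_gt_of_ne h with h1 | h1
  · rw [if_pos h1, if_neg (by omega)]
  · rw [if_neg (by omega), if_pos h1]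

lemma sg_symm {n : ℕ} (i j : Fin n) : sg i j = sg j i := by
  unfold sg
  rw [Nat.add_comm]

lemma tarr_inst {n N : ℕ} (hN : 2 * N ≤ n ^ 4) (Z : Fin n × Fin n → Fin N) :
    TriInst n (tarr Z) := by
  have hNZ : 2 * (N : ℤ) ≤ (n : ℤ) ^ 4 := by exact_mod_cast hN
  refine ⟨fun i j => ?_, fun i j => ?_, fun i j => ?_⟩
  · unfold tarr
    dsimp only
    by_cases h : i = j
    · rw [h]
    · rw [if_neg h, if_neg (Ne.symm h)]
      by_cases h2 : cl i = cl j
      · rw [if_pos h2, if_pos h2.symm]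
      · rw [if_neg h2, if_neg (Ne.symm h2), co_symm h2, sg_symm]
  · unfold tarr
    dsimp only
    by_cases h : i = j
    · rw [if_pos h]
      simp [h]
    · rw [if_neg h]
      split_ifs <;> simp [h]
  · unfold tarr
    dsimp only
    have h4 : (0 : ℤ) ≤ (n : ℤ) ^ 4 := by positivity
    split_ifs with h h2
    · simpa using h4
    · dsimp only
      rw [abs_of_nonneg (by positivity)]
      exact hNZ
    · dsimp only
      have h5 := (Z (co i j)).isLt
      have h6 : ((Z (co i j)).val : ℤ) < N := by exact_mod_cast h5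
      have h7 : (0 : ℤ) ≤ ((Z (co i j)).val : ℤ) := by positivity
      rw [abs_le]
      unfold sg
      split_ifs <;> constructor <;> linarith

lemma tarr_diff {n N : ℕ} (Z : Fin n × Fin n → Fin N) {i j : Fin n} (h : cl i < cl j) :
    (tarr Z (i, j)).2 = (if cl i + cl j = 2 then -1 else 1) * ((Z (i, j)).val : ℤ) ∧
    (tarr Z (j, i)).2 = (if cl i + cl j = 2 then -1 else 1) * ((Z (i, j)).val : ℤ) := by
  have hne : i ≠ j := by rintro rfl; exact lt_irrefl _ h
  have hc : cl i ≠ cl j := h.ne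
  unfold tarr
  dsimp only
  rw [if_neg hne, if_neg hc, if_neg (Ne.symm hne), if_neg (Ne.symm hc)]
  dsimp only
  have h1 : co i j = (i, j) := by unfold co; rw [if_pos h]
  rw [← co_symm hc, h1, sg_symm j i]
  exact ⟨rfl, rfl⟩

lemma tarr_same {n N : ℕ} (Z : Fin n × Fin n → Fin N) {i j : Fin n} (hne : i ≠ j)
    (h : cl i = cl j) : (tarr Z (i, j)).2 = 2 * (N : ℤ) := by
  unfold tarr
  dsimp only
  rw [if_neg hne, if_pos h]

lemma tarr_lower {n N : ℕ} (Z : Fin n × Fin n → Fin N) {i j : Fin n} (hne : i ≠ j) :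
    -(N : ℤ) < (tarr Z (i, j)).2 := by
  unfold tarr
  dsimp only
  rw [if_neg hne]
  have h5 := (Z (co i j)).isLt
  have h6 : ((Z (co i j)).val : ℤ) < N := by exact_mod_cast h5
  have h7 : (0 : ℤ) ≤ ((Z (co i j)).val : ℤ) := by positivity
  split_ifs with h
  · dsimp only; linarith
  · dsimp only
    unfold sg
    split_ifs <;> linarith

/-- The triangles of weight zero. -/
lemma yes_iff {n N : ℕ} (Z : Fin n × Fin n → Fin N) : TriYes (tarr Z) →
    ∃ i j k : Fin n, cl i = 0 ∧ cl j = 1 ∧ cl k = 2 ∧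
      (Z (i, j)).val + (Z (j, k)).val = (Z (i, k)).val := by
  have hmain : ∀ i j k : Fin n, cl i = 0 → cl j = 1 → cl k = 2 →
      (tarr Z (i, j)).2 + (tarr Z (j, k)).2 + (tarr Z (i, k)).2 = 0 →
      (Z (i, j)).val + (Z (j, k)).val = (Z (i, k)).val := by
    intro i j k hi hj hk h
    rw [(tarr_diff Z (by omega : cl i < cl j)).1, (tarr_diff Z (by omega : cl j < cl k)).1,
      (tarr_diff Z (by omega : cl i < cl k)).1, hi, hj, hk] at h
    norm_num at h
    omega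
  have hsymm : ∀ i j : Fin n, i ≠ j → (tarr Z (i, j)).2 = (tarr Z (j, i)).2 := by
    intro i j hij
    unfold tarr
    dsimp only
    rw [if_neg hij, if_neg (Ne.symm hij)]
    by_cases h2 : cl i = cl j
    · rw [if_pos h2, if_pos h2.symm]
    · rw [if_neg h2, if_neg (Ne.symm h2), co_symm h2, sg_symm]
  rintro ⟨i, j, k, hij, hjk, hik, -, -, -, h⟩
  have b1 := tarr_lower Z hij
  have b2 := tarr_lower Z hjk
  have b3 := tarr_lower Z hik
  have hd1 : cl i ≠ cl j := by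
    intro h1
    have := tarr_same Z hij h1
    linarith
  have hd2 : cl j ≠ cl k := by
    intro h1
    have := tarr_same Z hjk h1
    linarith
  have hd3 : cl i ≠ cl k := by
    intro h1
    have := tarr_same Z hik h1
    linarith
  have s1 := hsymm i j hij
  have s2 := hsymm j k hjk
  have s3 := hsymm i k hik
  have c1 := cl_lt i
  have c2 := cl_lt j
  have c3 := cl_lt k
  have hcases : (cl i = 0 ∧ cl j = 1 ∧ cl k = 2) ∨ (cl i = 0 ∧ cl j = 2 ∧ cl k = 1) ∨
      (cl i = 1 ∧ cl j = 0 ∧ cl k = 2) ∨ (cl i = 1 ∧ cl j = 2 ∧ cl k = 0) ∨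
      (cl i = 2 ∧ cl j = 0 ∧ cl k = 1) ∨ (cl i = 2 ∧ cl j = 1 ∧ cl k = 0) := by omega
  rcases hcases with ⟨h1, h2, h3⟩ | ⟨h1, h2, h3⟩ | ⟨h1, h2, h3⟩ | ⟨h1, h2, h3⟩ |
    ⟨h1, h2, h3⟩ | ⟨h1, h2, h3⟩
  · exact ⟨i, j, k, h1, h2, h3, hmain i j k h1 h2 h3 h⟩
  · exact ⟨i, k, j, h1, h3, h2, hmain i k j h1 h3 h2 (by linarith)⟩
  · exact ⟨j, i, k, h2, h1, h3, hmain j i k h2 h1 h3 (by linarith)⟩
  · exact ⟨k, i, j, h3, h1, h2, hmain k i j h3 h1 h2 (by linarith)⟩
  · exact ⟨j, k, i, h2, h3, h1, hmain j k i h2 h3 h1 (by linarith)⟩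
  · exact ⟨k, j, i, h3, h2, h1, hmain k j i h3 h2 h1 (by linarith)⟩

open Classical in
/-- The probability of a given equation. -/
lemma eq_prob {n N : ℕ} (hN : 1 ≤ N) (i j k : Fin n) :
    Ex (fun _ : Fin N => 1 / (N : ℝ)) (fun Z : Fin n × Fin n → Fin N =>
      if (cl i = 0 ∧ cl j = 1 ∧ cl k = 2 ∧ (Z (i, j)).val + (Z (j, k)).val = (Z (i, k)).val)
        then (1 : ℝ) else 0) ≤ 1 / (N : ℝ) := by
  have hNR : (0 : ℝ) < N := by exact_mod_cast hN
  have hl : ∀ a : Fin N, (0 : ℝ) ≤ (fun _ : Fin N => 1 / (N : ℝ)) a := fun _ => by positivity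
  have hl1 : ∑ _a : Fin N, (1 / (N : ℝ)) = 1 := by
    rw [Finset.sum_const, Finset.card_univ, Fintype.card_fin, nsmul_eq_mul]
    field_simp
  rw [Ex_resample hl1 _ (i, k)]
  refine le_trans (Ex_mono hl (G := fun _ => 1 / (N : ℝ)) ?_) (le_of_eq (Ex_const hl1 _))
  intro Z
  rw [← Finset.mul_sum]
  refine (mul_le_mul_of_nonneg_left ?_ (by positivity)).trans (le_of_eq (mul_one _))
  by_cases hc : cl i = 0 ∧ cl j = 1 ∧ cl k = 2
  · obtain ⟨h1, h2, h3⟩ := hc
    have hjk : j ≠ k := by rintro rfl; omega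
    have hij : i ≠ j := by rintro rfl; omega
    have e1 : ∀ a : Fin N, Function.update Z (i, k) a (i, j) = Z (i, j) := by
      intro a
      rw [Function.update_of_ne]
      intro h
      exact hjk (Prod.mk.inj h).2
    have e2 : ∀ a : Fin N, Function.update Z (i, k) a (j, k) = Z (j, k) := by
      intro a
      rw [Function.update_of_ne]
      intro h
      exact hij (Prod.mk.inj h).1.symm
    have e3 : ∀ a : Fin N, Function.update Z (i, k) a (i, k) = a := by
      intro a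
      rw [Function.update_self]
    simp only [e1, e2, e3]
    rw [Finset.sum_boole]
    have : (univ.filter (fun a : Fin N => cl i = 0 ∧ cl j = 1 ∧ cl k = 2 ∧
        (Z (i, j)).val + (Z (j, k)).val = a.val)).card ≤ 1 := by
      rw [Finset.card_le_one]
      intro a ha b hb
      have ha' := (Finset.mem_filter.1 ha).2.2.2.2
      have hb' := (Finset.mem_filter.1 hb).2.2.2.2
      exact Fin.ext (ha'.symm.trans hb')
    exact_mod_cast this
  · have : ∀ a : Fin N, ¬ (cl i = 0 ∧ cl j = 1 ∧ cl k = 2 ∧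
        (Function.update Z (i, k) a (i, j)).val + (Function.update Z (i, k) a (j, k)).val =
        (Function.update Z (i, k) a (i, k)).val) :=
      fun a h => hc ⟨h.1, h.2.1, h.2.2.1⟩
    simp only [this, if_false, Finset.sum_const_zero]
    norm_num

open Classical in
/-- Random graphs have no triangle of weight zero with probability at least one half. -/
lemma yes_prob {n N : ℕ} (hN : 1 ≤ N) (hnN : 2 * n ^ 3 ≤ N) :
    Ex (fun _ : Fin N => 1 / (N : ℝ)) (fun Z : Fin n × Fin n → Fin N =>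
      if TriYes (tarr Z) then (1 : ℝ) else 0) ≤ 1 / 2 := by
  have hNR : (0 : ℝ) < N := by exact_mod_cast hN
  have hl : ∀ a : Fin N, (0 : ℝ) ≤ (fun _ : Fin N => 1 / (N : ℝ)) a := fun _ => by positivity
  obtain ⟨e, he⟩ : ∃ e : Fin n × Fin n × Fin n → (Fin n × Fin n → Fin N) → ℝ,
      e = fun t Z => if (cl t.1 = 0 ∧ cl t.2.1 = 1 ∧ cl t.2.2 = 2 ∧
        (Z (t.1, t.2.1)).val + (Z (t.2.1, t.2.2)).val = (Z (t.1, t.2.2)).val)
        then (1 : ℝ) else 0 := ⟨_, rfl⟩
  have he0 : ∀ t Z, 0 ≤ e t Z := by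
    intro t Z; rw [he]; dsimp only; split_ifs <;> norm_num
  have hpt : ∀ Z : Fin n × Fin n → Fin N, (if TriYes (tarr Z) then (1 : ℝ) else 0) ≤
      ∑ t ∈ (univ : Finset (Fin n × Fin n × Fin n)), e t Z := by
    intro Z
    by_cases hy : TriYes (tarr Z)
    · rw [if_pos hy]
      obtain ⟨i, j, k, h1, h2, h3, h4⟩ := yes_iff Z hy
      refine le_trans ?_ (Finset.single_le_sum (fun t _ => he0 t Z) (Finset.mem_univ (i, j, k)))
      rw [he]
      dsimp only
      rw [if_pos ⟨h1, h2, h3, h4⟩]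
    · rw [if_neg hy]
      exact Finset.sum_nonneg fun t _ => he0 t Z
  refine (Ex_mono hl hpt).trans ?_
  rw [Ex_sum]
  have h1 : ∀ t ∈ (univ : Finset (Fin n × Fin n × Fin n)),
      Ex (fun _ : Fin N => 1 / (N : ℝ)) (e t) ≤ 1 / (N : ℝ) := by
    intro t _
    rw [he]
    exact eq_prob hN t.1 t.2.1 t.2.2
  refine (Finset.sum_le_card_nsmul _ _ _ h1).trans ?_
  rw [Finset.card_univ, Fintype.card_prod, Fintype.card_prod, Fintype.card_fin, nsmul_eq_mul,
    mul_one_div, div_le_div_iff₀ hNR (by norm_num)]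
  have h2 : ((2 * n ^ 3 : ℕ) : ℝ) ≤ N := by exact_mod_cast hnN
  push_cast at h2 ⊢
  nlinarith

/-- The vertices of a planted triangle. -/
def ver {n : ℕ} (c : ℕ) (hc : c < 3) (a : Fin (n / 3)) : Fin n :=
  ⟨3 * a.val + c, by have := a.isLt; omega⟩

lemma cl_ver {n c : ℕ} (hc : c < 3) (a : Fin (n / 3)) : cl (ver c hc a : Fin n) = c := by
  unfold cl ver
  dsimp only
  omega

lemma ver_inj {n c : ℕ} (hc : c < 3) {a b : Fin (n / 3)}
    (h : (ver c hc a : Fin n) = ver c hc b) : a = b := by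
  have := congrArg Fin.val h
  unfold ver at this
  dsimp only at this
  exact Fin.ext (by omega)

/-- The positions of the edges of a planted triangle. -/
def pos3 {n : ℕ} (κ : Fin (n / 3) × Fin (n / 3) × Fin (n / 3)) : Fin 3 → Fin n × Fin n :=
  ![(ver 0 (by norm_num) κ.1, ver 1 (by norm_num) κ.2.1),
    (ver 1 (by norm_num) κ.2.1, ver 2 (by norm_num) κ.2.2),
    (ver 0 (by norm_num) κ.1, ver 2 (by norm_num) κ.2.2)]

section Pos
variable {n : ℕ} (κ : Fin (n / 3) × Fin (n / 3) × Fin (n / 3))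

lemma pos3_0 : pos3 κ 0 = (ver 0 (by norm_num) κ.1, ver 1 (by norm_num) κ.2.1) := rfl

lemma pos3_1 : pos3 κ 1 = (ver 1 (by norm_num) κ.2.1, ver 2 (by norm_num) κ.2.2) := rfl

lemma pos3_2 : pos3 κ 2 = (ver 0 (by norm_num) κ.1, ver 2 (by norm_num) κ.2.2) := rfl

/-- The classes of the ends of the edges of a planted triangle. -/
lemma pos3_cl (h : Fin 3) : (cl (pos3 κ h).1, cl (pos3 κ h).2) =
    (![(0, 1), (1, 2), (0, 2)] : Fin 3 → ℕ × ℕ) h := by
  fin_cases h
  · show (cl (pos3 κ 0).1, cl (pos3 κ 0).2) = (0, 1)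
    rw [pos3_0]; dsimp only; rw [cl_ver, cl_ver]
  · show (cl (pos3 κ 1).1, cl (pos3 κ 1).2) = (1, 2)
    rw [pos3_1]; dsimp only; rw [cl_ver, cl_ver]
  · show (cl (pos3 κ 2).1, cl (pos3 κ 2).2) = (0, 2)
    rw [pos3_2]; dsimp only; rw [cl_ver, cl_ver]

lemma pos3_inj : Function.Injective (pos3 κ) := by
  intro a b hab
  have h1 := pos3_cl κ a
  have h2 := pos3_cl κ b
  rw [hab, h2] at h1
  revert h1
  fin_cases a <;> fin_cases b <;> decide

end Pos

lemma pos3_eq {n : ℕ} (κ κ' : Fin (n / 3) × Fin (n / 3) × Fin (n / 3)) (H : Finset (Fin 3))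
    (V : Finset (Fin n × Fin n)) (h1 : H.image (pos3 κ) = V) (h2 : H.image (pos3 κ') = V)
    {a : Fin 3} (ha : a ∈ H) : pos3 κ a = pos3 κ' a := by
  have h3 : pos3 κ a ∈ H.image (pos3 κ') := by
    rw [h2, ← h1]
    exact Finset.mem_image_of_mem _ ha
  obtain ⟨b, hb, hb'⟩ := Finset.mem_image.1 h3
  have e1 := pos3_cl κ a
  have e2 := pos3_cl κ' b
  rw [hb', e1] at e2
  have : a = b := by
    revert e2
    fin_cases a <;> fin_cases b <;> decide
  rw [this] at hb' ⊢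
  rw [this] at ha
  exact hb'.symm

/-- The bound of the number of planted triangles through given edges. -/
def B3 (n s : ℕ) : ℕ := if s = 1 then n / 3 else 1

open Classical in
lemma pos3_count {n : ℕ} (H : Finset (Fin 3)) (V : Finset (Fin n × Fin n)) (hH1 : 1 ≤ H.card)
    (hH2 : H.card ≤ 2 * (2 - 1)) :
    (univ.filter (fun κ : Fin (n / 3) × Fin (n / 3) × Fin (n / 3) =>
      H.image (pos3 κ) = V)).card ≤ B3 n H.card := by
  have hcases : H = {0} ∨ H = {1} ∨ H = {2} ∨ H = {0, 1} ∨ H = {0, 2} ∨ H = {1, 2} := by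
    revert H
    decide
  have hone : ∀ f : Fin (n / 3) × Fin (n / 3) × Fin (n / 3) → Fin (n / 3),
      (∀ κ κ' : Fin (n / 3) × Fin (n / 3) × Fin (n / 3), H.image (pos3 κ) = V →
        H.image (pos3 κ') = V → f κ = f κ' → κ = κ') →
      (univ.filter (fun κ : Fin (n / 3) × Fin (n / 3) × Fin (n / 3) =>
        H.image (pos3 κ) = V)).card ≤ n / 3 := by
    intro f hf
    have h1 := Finset.card_le_card_of_injOn (s := univ.filter
      (fun κ : Fin (n / 3) × Fin (n / 3) × Fin (n / 3) => H.image (pos3 κ) = V)) (t := univ) f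
      (fun κ _ => Finset.mem_coe.2 (Finset.mem_univ _)) (by
        intro κ hκ κ' hκ' h
        exact hf κ κ' (Finset.mem_filter.1 (Finset.mem_coe.1 hκ)).2
          (Finset.mem_filter.1 (Finset.mem_coe.1 hκ')).2 h)
    rwa [Finset.card_univ, Fintype.card_fin] at h1
  have htwo : (∀ κ κ' : Fin (n / 3) × Fin (n / 3) × Fin (n / 3), H.image (pos3 κ) = V →
      H.image (pos3 κ') = V → κ = κ') →
      (univ.filter (fun κ : Fin (n / 3) × Fin (n / 3) × Fin (n / 3) =>
        H.image (pos3 κ) = V)).card ≤ 1 := by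
    intro hf
    rw [Finset.card_le_one]
    intro κ hκ κ' hκ'
    exact hf κ κ' (Finset.mem_filter.1 hκ).2 (Finset.mem_filter.1 hκ').2
  have hext : ∀ κ κ' : Fin (n / 3) × Fin (n / 3) × Fin (n / 3), κ.1 = κ'.1 → κ.2.1 = κ'.2.1 →
      κ.2.2 = κ'.2.2 → κ = κ' := by
    rintro ⟨a, b, c⟩ ⟨a', b', c'⟩ h1 h2 h3
    dsimp only at h1 h2 h3
    rw [h1, h2, h3]
  have q0 : ∀ κ κ' : Fin (n / 3) × Fin (n / 3) × Fin (n / 3), pos3 κ 0 = pos3 κ' 0 →
      κ.1 = κ'.1 ∧ κ.2.1 = κ'.2.1 := by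
    intro κ κ' h
    rw [pos3_0, pos3_0] at h
    exact ⟨ver_inj _ (Prod.mk.inj h).1, ver_inj _ (Prod.mk.inj h).2⟩
  have q1 : ∀ κ κ' : Fin (n / 3) × Fin (n / 3) × Fin (n / 3), pos3 κ 1 = pos3 κ' 1 →
      κ.2.1 = κ'.2.1 ∧ κ.2.2 = κ'.2.2 := by
    intro κ κ' h
    rw [pos3_1, pos3_1] at h
    exact ⟨ver_inj _ (Prod.mk.inj h).1, ver_inj _ (Prod.mk.inj h).2⟩
  have q2 : ∀ κ κ' : Fin (n / 3) × Fin (n / 3) × Fin (n / 3), pos3 κ 2 = pos3 κ' 2 →
      κ.1 = κ'.1 ∧ κ.2.2 = κ'.2.2 := by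
    intro κ κ' h
    rw [pos3_2, pos3_2] at h
    exact ⟨ver_inj _ (Prod.mk.inj h).1, ver_inj _ (Prod.mk.inj h).2⟩
  rcases hcases with rfl | rfl | rfl | rfl | rfl | rfl
  · refine (hone (fun κ => κ.2.2) ?_).trans (le_of_eq (by simp [B3]))
    intro κ κ' h h' he
    obtain ⟨h1, h2⟩ := q0 κ κ' (pos3_eq κ κ' _ V h h' (by simp))
    exact hext κ κ' h1 h2 he
  · refine (hone (fun κ => κ.1) ?_).trans (le_of_eq (by simp [B3]))
    intro κ κ' h h' he
    obtain ⟨h1, h2⟩ := q1 κ κ' (pos3_eq κ κ' _ V h h' (by simp))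
    exact hext κ κ' he h1 h2
  · refine (hone (fun κ => κ.2.1) ?_).trans (le_of_eq (by simp [B3]))
    intro κ κ' h h' he
    obtain ⟨h1, h2⟩ := q2 κ κ' (pos3_eq κ κ' _ V h h' (by simp))
    exact hext κ κ' h1 he h2
  · refine (htwo ?_).trans (le_of_eq (by simp [B3]))
    intro κ κ' h h'
    obtain ⟨h1, h2⟩ := q0 κ κ' (pos3_eq κ κ' _ V h h' (by simp))
    obtain ⟨_, h3⟩ := q1 κ κ' (pos3_eq κ κ' _ V h h' (by simp))
    exact hext κ κ' h1 h2 h3
  · refine (htwo ?_).trans (le_of_eq (by simp [B3]))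
    intro κ κ' h h'
    obtain ⟨h1, h2⟩ := q0 κ κ' (pos3_eq κ κ' _ V h h' (by simp))
    obtain ⟨_, h3⟩ := q2 κ κ' (pos3_eq κ κ' _ V h h' (by simp))
    exact hext κ κ' h1 h2 h3
  · refine (htwo ?_).trans (le_of_eq (by simp [B3]))
    intro κ κ' h h'
    obtain ⟨h2, h3⟩ := q1 κ κ' (pos3_eq κ κ' _ V h h' (by simp))
    obtain ⟨h1, _⟩ := q2 κ κ' (pos3_eq κ κ' _ V h h' (by simp))
    exact hext κ κ' h1 h2 h3

end Pool.Agent.W980.ET
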