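import Mathlib
import Pool.Agent.W964.Wd.SumUpper
import Pool.Agent.W980.ET.Dist

/-!
A parallel machine with `n ^ 3` processors that solves Exact Triangle in three steps.
-/

set_option linter.unusedSectionVars false

namespace Pool.Agent.W980.ET

open Pool.Agent.W964.Wd

/-- If nobody writes in a step, then the memory does not change. -/
lemma mem_same {W J : Type} {P : ℕ} (M : Machine W J P) (x : J → W) (t : ℕ)
    (h : ∀ p, M.write ((M.run x (t + 1)).1 p) = none) (c : J ⊕ M.A) :
    (M.run x (t + 1)).2 c = (M.run x t).2 c := by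
  show ((List.finRange P).findSome? (fun p => M.wr c ((M.run x (t + 1)).1 p))).getD
    ((M.run x t).2 c) = _
  have : (List.finRange P).findSome? (fun p => M.wr c ((M.run x (t + 1)).1 p)) = none := by
    rw [List.findSome?_eq_none_iff]
    intro p _
    exact wr_no (h p)
  rw [this]
  rfl

/-- The machine: the processor `(i, j, k)` reads the cells `(i, j)`, `(j, k)` and `(i, k)` and
marks the output cell if they form a triangle of weight zero. -/
@[reducible] def triMach (n : ℕ) : Machine (Bool × ℤ) (Fin n × Fin n) (n * (n * n)) where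
  Q := ℕ × (Fin n × Fin n × Fin n) × ℤ × Bool
  A := Unit
  V := Bool × ℤ
  word := fun w => w
  blank := (false, 0)
  start := fun p => (0, ((finProdFinEquiv.symm p).1, finProdFinEquiv.symm (finProdFinEquiv.symm p).2),
    0, true)
  query := fun q => match q.1 with
    | 0 => [Sum.inl (q.2.1.1, q.2.1.2.1)]
    | 1 => [Sum.inl (q.2.1.2.1, q.2.1.2.2)]
    | 2 => [Sum.inl (q.2.1.1, q.2.1.2.2)]
    | _ => []
  test := fun _ _ => true
  next := fun q o => match q.1, o with
    | 0, some (_, v) => (1, q.2.1, v.2, v.1)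
    | 1, some (_, v) => (2, q.2.1, q.2.2.1 + v.2, q.2.2.2 && v.1)
    | 2, some (_, v) => (3, q.2.1, q.2.2.1 + v.2, (q.2.2.2 && v.1) &&
        decide (q.2.1.1 ≠ q.2.1.2.1 ∧ q.2.1.2.1 ≠ q.2.1.2.2 ∧ q.2.1.1 ≠ q.2.1.2.2 ∧
          q.2.2.1 + v.2 = 0))
    | _, _ => (4, q.2.1, 0, false)
  write := fun q => match q.1 with
    | 3 => if q.2.2.2 = true then some (Sum.inr (), (true, 0)) else none
    | _ => none
  out := Sum.inr ()
  accept := fun v => v.1

lemma triMach_lists (n : ℕ) : (triMach n).Lists 1 := by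
  rintro ⟨t, r⟩
  match t with
  | 0 => exact le_rfl
  | 1 => exact le_rfl
  | 2 => exact le_rfl
  | _ + 3 => exact Nat.zero_le _

section Run
variable {n : ℕ} (x : Fin n × Fin n → Bool × ℤ)

/-- The indices of a processor. -/
abbrev tx (p : Fin (n * (n * n))) : Fin n × Fin n × Fin n :=
  ((finProdFinEquiv.symm p).1, finProdFinEquiv.symm (finProdFinEquiv.symm p).2)

lemma tx_surj (i j k : Fin n) : ∃ p, tx p = (i, j, k) := by
  refine ⟨finProdFinEquiv (i, finProdFinEquiv (j, k)), ?_⟩
  unfold tx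
  rw [Equiv.symm_apply_apply, Equiv.symm_apply_apply]

lemma tr1 (p : Fin (n * (n * n))) : ((triMach n).run x 1).1 p =
    (1, tx p, (x ((tx p).1, (tx p).2.1)).2, (x ((tx p).1, (tx p).2.1)).1) := rfl

lemma trm1 (e : Fin n × Fin n) : ((triMach n).run x 1).2 (Sum.inl e) = x e := by
  rw [mem_same _ x 0 (fun p => rfl)]
  rfl

lemma trm1o : ((triMach n).run x 1).2 (Sum.inr ()) = (false, 0) := by
  rw [mem_same _ x 0 (fun p => rfl)]
  rfl

lemma tr2 (p : Fin (n * (n * n))) : ((triMach n).run x 2).1 p =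
    (2, tx p, (x ((tx p).1, (tx p).2.1)).2 + (x ((tx p).2.1, (tx p).2.2)).2,
      (x ((tx p).1, (tx p).2.1)).1 && (x ((tx p).2.1, (tx p).2.2)).1) := by
  show (2, tx p, (x ((tx p).1, (tx p).2.1)).2 +
      (((triMach n).run x 1).2 (Sum.inl ((tx p).2.1, (tx p).2.2))).2,
      (x ((tx p).1, (tx p).2.1)).1 &&
        (((triMach n).run x 1).2 (Sum.inl ((tx p).2.1, (tx p).2.2))).1) = _
  rw [trm1]

lemma trm2 (c : (Fin n × Fin n) ⊕ Unit) :
    ((triMach n).run x 2).2 c = ((triMach n).run x 1).2 c := by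
  refine mem_same (triMach n) x 1 (fun p => ?_) c
  have h : ((triMach n).run x (1 + 1)).1 p = _ := tr2 x p
  rw [h]
  rfl

open Classical in
lemma tr3 (p : Fin (n * (n * n))) : ((triMach n).run x 3).1 p =
    (3, tx p, (x ((tx p).1, (tx p).2.1)).2 + (x ((tx p).2.1, (tx p).2.2)).2 +
      (x ((tx p).1, (tx p).2.2)).2,
      decide ((tx p).1 ≠ (tx p).2.1 ∧ (tx p).2.1 ≠ (tx p).2.2 ∧ (tx p).1 ≠ (tx p).2.2 ∧
        (x ((tx p).1, (tx p).2.1)).1 = true ∧ (x ((tx p).2.1, (tx p).2.2)).1 = true ∧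
        (x ((tx p).1, (tx p).2.2)).1 = true ∧
        (x ((tx p).1, (tx p).2.1)).2 + (x ((tx p).2.1, (tx p).2.2)).2 +
          (x ((tx p).1, (tx p).2.2)).2 = 0)) := by
  have h1 : ((triMach n).run x 3).1 p = (triMach n).next (((triMach n).run x 2).1 p)
      ((triMach n).find (((triMach n).run x 2).1 p) ((triMach n).run x 2).2) := rfl
  rw [h1, tr2]
  show (3, tx p, (x ((tx p).1, (tx p).2.1)).2 + (x ((tx p).2.1, (tx p).2.2)).2 +
      (((triMach n).run x 2).2 (Sum.inl ((tx p).1, (tx p).2.2))).2,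
      (((x ((tx p).1, (tx p).2.1)).1 && (x ((tx p).2.1, (tx p).2.2)).1) &&
        (((triMach n).run x 2).2 (Sum.inl ((tx p).1, (tx p).2.2))).1) &&
        decide ((tx p).1 ≠ (tx p).2.1 ∧ (tx p).2.1 ≠ (tx p).2.2 ∧ (tx p).1 ≠ (tx p).2.2 ∧
          (x ((tx p).1, (tx p).2.1)).2 + (x ((tx p).2.1, (tx p).2.2)).2 +
      (((triMach n).run x 2).2 (Sum.inl ((tx p).1, (tx p).2.2))).2 = 0)) = _
  rw [trm2, trm1]
  congr 3
  rw [Bool.eq_iff_iff]
  simp only [Bool.and_eq_true, decide_eq_true_eq]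
  tauto

open Classical in
lemma trm3 : (((triMach n).run x 3).2 (Sum.inr ())).1 = true ↔ TriYes x := by
  have hw : ∀ p : Fin (n * (n * n)), (triMach n).wr (Sum.inr ())
      (((triMach n).run x 3).1 p) = if ((tx p).1 ≠ (tx p).2.1 ∧ (tx p).2.1 ≠ (tx p).2.2 ∧
        (tx p).1 ≠ (tx p).2.2 ∧
        (x ((tx p).1, (tx p).2.1)).1 = true ∧ (x ((tx p).2.1, (tx p).2.2)).1 = true ∧
        (x ((tx p).1, (tx p).2.2)).1 = true ∧
        (x ((tx p).1, (tx p).2.1)).2 + (x ((tx p).2.1, (tx p).2.2)).2 +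
          (x ((tx p).1, (tx p).2.2)).2 = 0) then
      some ((true, 0) : Bool × ℤ) else none := by
    intro p
    rw [tr3]
    by_cases h : ((tx p).1 ≠ (tx p).2.1 ∧ (tx p).2.1 ≠ (tx p).2.2 ∧
        (tx p).1 ≠ (tx p).2.2 ∧
        (x ((tx p).1, (tx p).2.1)).1 = true ∧ (x ((tx p).2.1, (tx p).2.2)).1 = true ∧
        (x ((tx p).1, (tx p).2.2)).1 = true ∧
        (x ((tx p).1, (tx p).2.1)).2 + (x ((tx p).2.1, (tx p).2.2)).2 +
          (x ((tx p).1, (tx p).2.2)).2 = 0)
    · rw [if_pos h, decide_eq_true h]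
      exact wr_eq (M := triMach n) (c := Sum.inr ())
        (q := (3, tx p, (x ((tx p).1, (tx p).2.1)).2 + (x ((tx p).2.1, (tx p).2.2)).2 +
          (x ((tx p).1, (tx p).2.2)).2, true)) (w := (Sum.inr (), (true, 0)))
        rfl rfl
    · rw [if_neg h, decide_eq_false h]
      exact wr_no rfl
  have hrun : ((triMach n).run x 3).2 (Sum.inr ()) =
      ((List.finRange (n * (n * n))).findSome? (fun p => (triMach n).wr (Sum.inr ())
      (((triMach n).run x 3).1 p))).getD (((triMach n).run x 2).2 (Sum.inr ())) := rfl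
  rw [hrun, trm2, trm1o]
  by_cases h : TriYes x
  · obtain ⟨i, j, k, hij⟩ := h
    have : (List.finRange (n * (n * n))).findSome? (fun p => (triMach n).wr (Sum.inr ())
      (((triMach n).run x 3).1 p)) = some ((true, 0) : Bool × ℤ) := by
      apply fs_one
      · obtain ⟨p, hp⟩ := tx_surj i j k
        refine ⟨p, List.mem_finRange _, ?_⟩
        rw [hw, hp, if_pos hij]
      · intro p _ w hp
        rw [hw] at hp
        split_ifs at hp with h2
        exact (Option.some.inj hp).symm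
    rw [this]
    exact ⟨fun _ => ⟨i, j, k, hij⟩, fun _ => rfl⟩
  · have : (List.finRange (n * (n * n))).findSome? (fun p => (triMach n).wr (Sum.inr ())
      (((triMach n).run x 3).1 p)) = none := by
      rw [List.findSome?_eq_none_iff]
      intro p _
      rw [hw]
      exact if_neg (fun h2 => h ⟨_, _, _, h2⟩)
    rw [this]
    constructor
    · intro h'
      cases h'
    · intro h'
      exact absurd h' h

open Classical in
lemma tlate (t : ℕ) : (∀ p, 3 ≤ (((triMach n).run x (t + 3)).1 p).1) ∧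
    ((triMach n).run x (t + 3)).2 (Sum.inr ()) = ((triMach n).run x 3).2 (Sum.inr ()) := by
  induction t with
  | zero =>
    refine ⟨fun p => ?_, rfl⟩
    rw [Nat.zero_add, tr3]
  | succ t ih =>
    obtain ⟨h1, h2⟩ := ih
    have hst : ∀ p, ∃ r, ((triMach n).run x (t + 1 + 3)).1 p = (4, r) := by
      intro p
      have h3 := h1 p
      have e : ((triMach n).run x (t + 1 + 3)).1 p =
          (triMach n).next (((triMach n).run x (t + 3)).1 p)
          ((triMach n).find (((triMach n).run x (t + 3)).1 p) ((triMach n).run x (t + 3)).2) := rfl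
      rw [e]
      generalize ((triMach n).run x (t + 3)).1 p = q at h3
      obtain ⟨q0, r⟩ := q
      obtain ⟨k, hk⟩ : ∃ k, q0 = k + 3 := ⟨q0 - 3, by dsimp only at h3; omega⟩
      subst hk
      exact ⟨_, rfl⟩
    refine ⟨fun p => ?_, ?_⟩
    · obtain ⟨r, hr⟩ := hst p
      rw [hr]
      show 3 ≤ 4
      norm_num
    · have e := mem_same (triMach n) x (t + 3) (fun p => by
        obtain ⟨r, hr⟩ := hst p
        have hr' : ((triMach n).run x (t + 3 + 1)).1 p = (4, r) := hr
        rw [hr']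
        rfl) (Sum.inr ())
      exact e.trans h2

end Run

/-- The machine is correct. -/
theorem triMach_correct {n : ℕ} (x : Fin n × Fin n → Bool × ℤ) (T : ℕ) (hT : 3 ≤ T) :
    (triMach n).answer T x = true ↔ TriYes x := by
  classical
  obtain ⟨t, rfl⟩ : ∃ t, T = t + 3 := ⟨T - 3, by omega⟩
  have h1 : (triMach n).answer (t + 3) x =
      (((triMach n).run x (t + 3)).2 (Sum.inr ())).1 := rfl
  rw [h1, (tlate x t).2, trm3]

end Pool.Agent.W980.ET
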